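import Pool.Agent.X26.LF.Stm

set_option autoImplicit false

namespace Pool.Agent.X158.LF

open Finset Pool.Agent.X26.LF

open Classical in
/-- one configuration -/
theorem one (hC : S_CNT) (m p N : ℕ) [Fact p.Prime] (u v : Fin m → ℤ) (A : Finset (ZMod p))
    (s : ZMod p) (hm : 1 ≤ m) (hNP : NP u v p) (hF : Free v p A)
    (ι : Fin m → Fin N) (hι : Function.Injective ι) (K L : Finset (Fin m))
    (a : Fin m → ZMod p) (ha : ∀ k ∈ K, a k ∈ A) (κ : Fin m → Fin N) :
    p ^ 2 * (univ.filter fun x : Fin N → ZMod p => ∑ j, (u j : ZMod p) * x (ι j) = s ∧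
      ∑ k ∈ K, (v k : ZMod p) * a k + ∑ k ∈ L, (v k : ZMod p) * x (κ k) = 1).card ≤ p ^ N := by
  set c : Fin N → ZMod p := fun i => ∑ j ∈ univ.filter (fun j => ι j = i), (u j : ZMod p) with hc
  set d : Fin N → ZMod p := fun i => ∑ k ∈ L.filter (fun k => κ k = i), (v k : ZMod p) with hd
  have hcx : ∀ x : Fin N → ZMod p, ∑ i, c i * x i = ∑ j, (u j : ZMod p) * x (ι j) := by
    intro x
    rw [← Finset.sum_fiberwise (s := univ) (g := ι) (f := fun j => (u j : ZMod p) * x (ι j))]
    refine sum_congr rfl fun i _ => ?_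
    rw [hc, sum_mul]
    refine sum_congr rfl fun j hj => ?_
    rw [(mem_filter.mp hj).2]
  have hdx : ∀ x : Fin N → ZMod p, ∑ i, d i * x i = ∑ k ∈ L, (v k : ZMod p) * x (κ k) := by
    intro x
    rw [← Finset.sum_fiberwise (s := L) (g := κ) (f := fun k => (v k : ZMod p) * x (κ k))]
    refine sum_congr rfl fun i _ => ?_
    rw [hd, sum_mul]
    refine sum_congr rfl fun j hj => ?_
    rw [(mem_filter.mp hj).2]
  have hcι : ∀ j, c (ι j) = (u j : ZMod p) := by
    intro j
    rw [hc]
    have : univ.filter (fun j' => ι j' = ι j) = {j} := by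
      ext j'
      simp only [mem_filter, mem_univ, true_and, mem_singleton]
      exact ⟨fun h => hι h, fun h => by rw [h]⟩
    simp only [this, sum_singleton]
  have hc0 : c ≠ 0 := by
    intro h
    have h1 := hcι ⟨0, hm⟩
    rw [h] at h1
    exact hNP.1 ⟨0, hm⟩ h1.symm
  by_cases hl : ∃ l, d = fun i => l * c i
  · obtain ⟨l, hl⟩ := hl
    by_cases hl0 : l = 0
    · have hd0 : d = 0 := by rw [hl, hl0]; funext i; simp
      have : (univ.filter fun x : Fin N → ZMod p => ∑ j, (u j : ZMod p) * x (ι j) = s ∧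
        ∑ k ∈ K, (v k : ZMod p) * a k + ∑ k ∈ L, (v k : ZMod p) * x (κ k) = 1) = ∅ := by
        refine filter_eq_empty_iff.mpr ?_
        rintro x - ⟨-, h2⟩
        rw [← hdx x, hd0] at h2
        simp only [Pi.zero_apply, zero_mul, sum_const_zero, add_zero] at h2
        exact hF K a ha h2
      rw [this]; simp
    · exfalso
      have h1 : ∀ j, ∃ k, k ∈ L ∧ κ k = ι j := by
        intro j
        by_contra hcon
        have : L.filter (fun k => κ k = ι j) = ∅ := by
          refine filter_eq_empty_iff.mpr fun k hk h => hcon ⟨k, hk, h⟩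
        have h2 : d (ι j) = 0 := by rw [hd]; simp only [this, sum_empty]
        rw [hl] at h2
        simp only [] at h2
        rw [hcι] at h2
        rcases mul_eq_zero.mp h2 with h3 | h3
        · exact hl0 h3
        · exact hNP.1 j h3
      choose τ hτL hτ using h1
      have hτi : Function.Injective τ := by
        intro j j' h
        apply hι
        rw [← hτ j, ← hτ j', h]
      have hτb : Function.Bijective τ := Finite.injective_iff_bijective.mp hτi
      have h3 : ∀ j, (v (τ j) : ZMod p) = l * (u j : ZMod p) := by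
        intro j
        have h4 : d (ι j) = (v (τ j) : ZMod p) := by
          rw [hd]
          have : L.filter (fun k => κ k = ι j) = {τ j} := by
            ext k
            simp only [mem_filter, mem_singleton]
            constructor
            · rintro ⟨-, hk⟩
              obtain ⟨j', rfl⟩ := hτb.2 k
              rw [hτ j'] at hk
              rw [hι hk]
            · rintro rfl
              exact ⟨hτL j, hτ j⟩
          simp only [this, sum_singleton]
        rw [← h4, hl]
        simp only []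
        rw [hcι]
      refine hNP.2 (Equiv.ofBijective τ hτb).symm l fun i => ?_
      obtain ⟨j, rfl⟩ := hτb.2 i
      rw [h3 j]
      congr 3
      exact ((Equiv.ofBijective τ hτb).symm_apply_apply j).symm
  · have h := (hC p N c d s (1 - ∑ k ∈ K, (v k : ZMod p) * a k) hc0).2 hl
    refine le_of_eq ?_
    rw [← h]
    congr 2
    refine filter_congr fun x _ => ?_
    rw [hcx, hdx]
    constructor
    · rintro ⟨h1, h2⟩; exact ⟨h1, by rw [← h2]; ring⟩
    · rintro ⟨h1, h2⟩; exact ⟨h1, by rw [h2]; ring⟩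

open Classical in
theorem t_BAD : S_BAD := by
  intro hC m p N _ u v A s hm hNP hF
  obtain ⟨m', rfl⟩ : ∃ m', m = m' + 1 := ⟨m - 1, by omega⟩
  -- indices
  let G := {z // z ∈ A} ⊕ Fin N
  let Idx := (Fin (m' + 1) → G) × Fin (m' + 1) × Fin (m' + 1) × Finset (Fin (m' + 1)) ×
    Finset (Fin (m' + 1)) × (Fin m' → G)
  have hIdx : Fintype.card Idx = (m' + 1) ^ 2 * 4 ^ (m' + 1) * (A.card + N) ^ (2 * (m' + 1) - 1) := by
    have hG : Fintype.card G = A.card + N := by
      simp [G]
    simp only [Idx, Fintype.card_prod, Fintype.card_fun, Fintype.card_fin, Fintype.card_finset, hG]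
    have e : 2 * (m' + 1) - 1 = (m' + 1) + m' := by omega
    have e4 : (4 : ℕ) ^ (m' + 1) = 2 ^ (m' + 1) * 2 ^ (m' + 1) := by
      rw [← mul_pow]; norm_num
    rw [e, pow_add, e4]
    ring
  -- the configuration of an index
  let Sg : Idx → Finset (Fin N → ZMod p) := fun t => univ.filter fun x =>
    ∃ (ι : Fin (m' + 1) → Fin N) (a : Fin (m' + 1) → ZMod p) (κ : Fin (m' + 1) → Fin N),
      (∀ i, t.1 i = Sum.inr (ι i)) ∧ Function.Injective ι ∧
      κ t.2.2.1 = ι t.2.1 ∧ t.2.2.1 ∉ t.2.2.2.1 ∧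
      (∀ i : Fin m', t.2.2.1.succAbove i ∈ t.2.2.2.1 → ∃ z : {z // z ∈ A},
        t.2.2.2.2.2 i = Sum.inl z ∧ z.1 = a (t.2.2.1.succAbove i)) ∧
      (∀ i : Fin m', t.2.2.1.succAbove i ∈ t.2.2.2.2.1 →
        t.2.2.2.2.2 i = Sum.inr (κ (t.2.2.1.succAbove i))) ∧
      ∑ j, (u j : ZMod p) * x (ι j) = s ∧
      ∑ k ∈ t.2.2.2.1, (v k : ZMod p) * a k + ∑ k ∈ t.2.2.2.2.1, (v k : ZMod p) * x (κ k) = 1
  have hSg : ∀ t : Idx, p ^ 2 * (Sg t).card ≤ p ^ N := by
    intro t
    by_cases hne : (Sg t).Nonempty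
    · obtain ⟨x0, hx0⟩ := hne
      obtain ⟨ι, a, κ, h1, h2, h3, h4, h5, h6, -, -⟩ := (mem_filter.mp hx0).2
      have haK : ∀ k ∈ t.2.2.2.1, a k ∈ A := by
        intro k hk
        have hkk : k ≠ t.2.2.1 := by rintro rfl; exact h4 hk
        obtain ⟨i, rfl⟩ := Fin.exists_succAbove_eq hkk
        obtain ⟨z, -, hz⟩ := h5 i hk
        rw [← hz]; exact z.2
      refine le_trans (Nat.mul_le_mul_left _ (card_le_card ?_))
        (one hC (m' + 1) p N u v A s hm hNP hF ι h2 t.2.2.2.1 t.2.2.2.2.1 a haK κ)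
      intro x hx
      obtain ⟨ι', a', κ', g1, g2, g3, g4, g5, g6, g7, g8⟩ := (mem_filter.mp hx).2
      have hιι : ι' = ι := by
        funext i
        have := (g1 i).symm.trans (h1 i)
        exact Sum.inr_injective this
      have hκ : ∀ k ∈ t.2.2.2.2.1, κ' k = κ k := by
        intro k hk
        by_cases hkk : k = t.2.2.1
        · rw [hkk, g3, h3, hιι]
        · obtain ⟨i, rfl⟩ := Fin.exists_succAbove_eq hkk
          exact Sum.inr_injective ((g6 i hk).symm.trans (h6 i hk))
      have haa : ∀ k ∈ t.2.2.2.1, a' k = a k := by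
        intro k hk
        have hkk : k ≠ t.2.2.1 := by rintro rfl; exact h4 hk
        obtain ⟨i, rfl⟩ := Fin.exists_succAbove_eq hkk
        obtain ⟨z, hz1, hz2⟩ := h5 i hk
        obtain ⟨z', hz1', hz2'⟩ := g5 i hk
        have : z = z' := Sum.inl_injective (hz1.symm.trans hz1')
        rw [← hz2, ← hz2', this]
      refine mem_filter.mpr ⟨mem_univ _, ?_, ?_⟩
      · rw [← hιι]; exact g7
      · rw [← g8]
        congr 1
        · exact sum_congr rfl fun k hk => by rw [haa k hk]
        · exact sum_congr rfl fun k hk => by rw [hκ k hk]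
    · rw [not_nonempty_iff_eq_empty] at hne
      rw [hne]; simp
  -- the union
  have hsub : (univ.filter fun x : Fin N → ZMod p => ∃ ι : Fin (m' + 1) ↪ Fin N,
      ∑ j, (u j : ZMod p) * x (ι j) = s ∧ ∃ j, Bad v p A x (ι j)) ⊆ univ.biUnion Sg := by
    intro x hx
    obtain ⟨ι, h1, j, K, L, a, κ, hKL, haK, ⟨k, hkL, hk⟩, hrel⟩ := (mem_filter.mp hx).2
    have hkK : k ∉ K := fun h => (Finset.disjoint_left.mp hKL h) hkL
    refine mem_biUnion.mpr ⟨(fun i => Sum.inr (ι i), j, k, K, L, fun i =>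
      if h : k.succAbove i ∈ K then Sum.inl ⟨a (k.succAbove i), haK _ h⟩
      else Sum.inr (κ (k.succAbove i))), mem_univ _, ?_⟩
    refine mem_filter.mpr ⟨mem_univ _, ι, a, κ, fun i => rfl, ι.injective, hk, hkK, ?_, ?_, h1, hrel⟩
    · intro i hi
      refine ⟨⟨a (k.succAbove i), haK _ hi⟩, ?_, rfl⟩
      simp only []
      rw [dif_pos hi]
    · intro i hi
      have : k.succAbove i ∉ K := fun h => (Finset.disjoint_left.mp hKL h) hi
      simp only []
      rw [dif_neg this]
  calc _ ≤ p ^ 2 * (univ.biUnion Sg).card := Nat.mul_le_mul_left _ (card_le_card hsub)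
    _ ≤ p ^ 2 * ∑ t : Idx, (Sg t).card := Nat.mul_le_mul_left _ card_biUnion_le
    _ = ∑ t : Idx, p ^ 2 * (Sg t).card := by rw [mul_sum]
    _ ≤ ∑ t : Idx, p ^ N := sum_le_sum fun t _ => hSg t
    _ = Fintype.card Idx * p ^ N := by rw [sum_const, card_univ, smul_eq_mul]
    _ = _ := by rw [hIdx]

end Pool.Agent.X158.LF

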